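import Mathlib

set_option autoImplicit false

/-! Polynomials without roots over a proper normed field form an open set. -/

namespace Pool.Agent.K1H40.CC

theorem opnK {K : Type*} [NormedField K] [ProperSpace K] (D : ℕ) (a : Fin (D + 1) → K)
    (hD : 0 < D) (ha : a 0 = 1)
    (h : ∀ z : K, ∑ j : Fin (D + 1), a j * z ^ (D - (j : ℕ)) ≠ 0) :
    ∃ ε : ℝ, 0 < ε ∧ ∀ b : Fin (D + 1) → K, (∀ j, ‖b j - a j‖ < ε) →
      ∀ z : K, ∑ j : Fin (D + 1), b j * z ^ (D - (j : ℕ)) ≠ 0 := by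
  obtain ⟨C, hC⟩ : ∃ C : ℝ, C = 1 + ∑ j, ‖a j‖ := ⟨_, rfl⟩
  have hS : 0 ≤ ∑ j, ‖a j‖ := Finset.sum_nonneg fun _ _ => norm_nonneg _
  have hC1 : 1 ≤ C := by rw [hC]; linarith
  have hD1 : (1 : ℝ) ≤ D := by exact_mod_cast hD
  obtain ⟨R, hR⟩ : ∃ R : ℝ, R = 2 * D * C + 1 := ⟨_, rfl⟩
  have hR1 : 1 ≤ R := by rw [hR]; nlinarith
  have hcont : Continuous fun z : K => ‖∑ j : Fin (D + 1), a j * z ^ (D - (j : ℕ))‖ := by fun_prop
  have hcomp : IsCompact (Metric.closedBall (0 : K) R) := isCompact_closedBall _ _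
  obtain ⟨z0, -, hz0⟩ := hcomp.exists_isMinOn ⟨0, by simp; linarith⟩ hcont.continuousOn
  obtain ⟨m, hm⟩ : ∃ m : ℝ, m = ‖∑ j : Fin (D + 1), a j * z0 ^ (D - (j : ℕ))‖ := ⟨_, rfl⟩
  have hm0 : 0 < m := by rw [hm]; exact norm_pos_iff.2 (h z0)
  have hRD : 0 < ((D : ℝ) + 1) * R ^ D := by positivity
  refine ⟨min (1 / 2) (m / (((D : ℝ) + 1) * R ^ D)), lt_min (by norm_num) (by positivity), ?_⟩
  intro b hb z hz
  have hb1 : ∀ j, ‖b j - a j‖ ≤ 1 / 2 := fun j => ((hb j).trans_le (min_le_left _ _)).le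
  have hb2 : ∀ j, ‖b j - a j‖ < m / (((D : ℝ) + 1) * R ^ D) := fun j =>
    (hb j).trans_le (min_le_right _ _)
  have hbC : ∀ j, ‖b j‖ ≤ C := by
    intro j
    have h1 : ‖b j‖ ≤ ‖b j - a j‖ + ‖a j‖ := by
      have := norm_add_le (b j - a j) (a j)
      rwa [sub_add_cancel] at this
    have h2 : ‖a j‖ ≤ ∑ j, ‖a j‖ :=
      Finset.single_le_sum (f := fun j => ‖a j‖) (fun _ _ => norm_nonneg _) (Finset.mem_univ j)
    have := hb1 j
    rw [hC]
    linarith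
  by_cases hzR : ‖z‖ ≤ R
  · have h1 : m ≤ ‖∑ j : Fin (D + 1), a j * z ^ (D - (j : ℕ))‖ := by
      rw [hm]
      exact hz0 (by simpa using hzR)
    have h2 : ‖∑ j : Fin (D + 1), a j * z ^ (D - (j : ℕ))‖ ≤
        ∑ j : Fin (D + 1), ‖b j - a j‖ * R ^ D := by
      have h3 : ∑ j : Fin (D + 1), a j * z ^ (D - (j : ℕ)) =
          -∑ j : Fin (D + 1), (b j - a j) * z ^ (D - (j : ℕ)) := by
        have : ∑ j : Fin (D + 1), (b j - a j) * z ^ (D - (j : ℕ)) =
            ∑ j : Fin (D + 1), b j * z ^ (D - (j : ℕ)) -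
              ∑ j : Fin (D + 1), a j * z ^ (D - (j : ℕ)) := by
          rw [← Finset.sum_sub_distrib]
          exact Finset.sum_congr rfl fun j _ => sub_mul _ _ _
        rw [this, hz, zero_sub, neg_neg]
      rw [h3, norm_neg]
      refine (norm_sum_le _ _).trans (Finset.sum_le_sum fun j _ => ?_)
      rw [norm_mul, norm_pow]
      refine mul_le_mul_of_nonneg_left ?_ (norm_nonneg _)
      calc ‖z‖ ^ (D - (j : ℕ)) ≤ R ^ (D - (j : ℕ)) := pow_le_pow_left₀ (norm_nonneg _) hzR _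
        _ ≤ R ^ D := pow_le_pow_right₀ hR1 (Nat.sub_le _ _)
    have h4 : ∑ j : Fin (D + 1), ‖b j - a j‖ * R ^ D < m := by
      calc ∑ j : Fin (D + 1), ‖b j - a j‖ * R ^ D
          < ∑ j : Fin (D + 1), m / (((D : ℝ) + 1) * R ^ D) * R ^ D :=
            Finset.sum_lt_sum_of_nonempty ⟨0, Finset.mem_univ _⟩ fun j _ =>
              mul_lt_mul_of_pos_right (hb2 j) (by positivity)
        _ = m := by
            rw [Finset.sum_const, Finset.card_univ, Fintype.card_fin, nsmul_eq_mul]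
            push_cast
            field_simp
    linarith
  · have hzR' : R < ‖z‖ := not_le.1 hzR
    have hz1 : 1 ≤ ‖z‖ := by linarith
    have hz0 : 0 < ‖z‖ := by linarith
    rw [Fin.sum_univ_succ] at hz
    have h1 : b 0 * z ^ D = -∑ i : Fin D, b i.succ * z ^ (D - (i.succ : ℕ)) := by
      have : (((0 : Fin (D + 1)) : ℕ)) = 0 := rfl
      rw [this, Nat.sub_zero] at hz
      exact eq_neg_of_add_eq_zero_left hz
    have h2 : ‖b 0‖ * ‖z‖ ^ D ≤ D * C * ‖z‖ ^ (D - 1) := by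
      rw [← norm_pow, ← norm_mul, h1, norm_neg]
      calc ‖∑ i : Fin D, b i.succ * z ^ (D - (i.succ : ℕ))‖
          ≤ ∑ i : Fin D, ‖b i.succ * z ^ (D - (i.succ : ℕ))‖ := norm_sum_le _ _
        _ ≤ ∑ _i : Fin D, C * ‖z‖ ^ (D - 1) := by
            refine Finset.sum_le_sum fun i _ => ?_
            rw [norm_mul, norm_pow]
            refine mul_le_mul (hbC _) ?_ (by positivity) (by linarith)
            refine pow_le_pow_right₀ hz1 ?_
            rw [Fin.val_succ]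
            omega
        _ = _ := by
            rw [Finset.sum_const, Finset.card_univ, Fintype.card_fin, nsmul_eq_mul]
            ring
    have h3 : 1 / 2 ≤ ‖b 0‖ := by
      have h4 : ‖a 0‖ ≤ ‖a 0 - b 0‖ + ‖b 0‖ := by
        have := norm_add_le (a 0 - b 0) (b 0)
        rwa [sub_add_cancel] at this
      rw [ha, norm_one, ← ha, norm_sub_rev] at h4
      have := hb1 0
      linarith
    have h5 : ‖z‖ ^ D = ‖z‖ * ‖z‖ ^ (D - 1) := by
      rw [← pow_succ']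
      congr 1
      omega
    rw [h5] at h2
    have h6 : 0 < ‖z‖ ^ (D - 1) := by positivity
    have h7 : 1 / 2 * ‖z‖ ≤ D * C := by
      have h8 : 1 / 2 * ‖z‖ * ‖z‖ ^ (D - 1) ≤ D * C * ‖z‖ ^ (D - 1) := by
        calc 1 / 2 * ‖z‖ * ‖z‖ ^ (D - 1) ≤ ‖b 0‖ * ‖z‖ * ‖z‖ ^ (D - 1) := by gcongr
          _ = ‖b 0‖ * (‖z‖ * ‖z‖ ^ (D - 1)) := by ring
          _ ≤ _ := h2
      exact le_of_mul_le_mul_right h8 h6
    rw [hR] at hzR'
    linarith

end Pool.Agent.K1H40.CC
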